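import Pool.Agent.H37.CND.Stmts

set_option autoImplicit false

namespace Pool.CND

theorem max_thm : S_MAX := by
  intro p G _ _ I A hp hI hAI hne
  obtain ⟨n, hn⟩ := hI
  haveI : Fact p.Prime := ⟨hp⟩
  set B : Subgroup I := A.subgroupOf I with hB
  have hBcard : Nat.card B = Nat.card A :=
    Nat.card_congr (Subgroup.subgroupOfEquivOfLe hAI).toEquiv
  obtain ⟨m, hmn, hm⟩ := (Nat.dvd_prime_pow hp).1 (hn ▸ Subgroup.card_dvd_of_le hAI)
  have hlt : m < n := by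
    rcases lt_or_eq_of_le hmn with h | h
    · exact h
    · exact absurd (Subgroup.eq_of_le_of_card_ge hAI (by rw [hn, hm, h])) hne
  obtain ⟨r, rfl⟩ : ∃ r, n = r + 1 := ⟨n - 1, by omega⟩
  obtain ⟨K, hK, hBK⟩ := Sylow.exists_subgroup_card_pow_prime_le (G := I) p (m := r)
    (hn ▸ pow_dvd_pow p (Nat.le_succ r)) B (by rw [hBcard, hm]) (by omega)
  have hind : K.index = (Nat.card I).minFac := by
    rw [hn, hp.pow_minFac (Nat.succ_ne_zero r)]
    have h1 := K.card_mul_index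
    rw [hK, hn, pow_succ] at h1
    exact Nat.eq_of_mul_eq_mul_left (pow_pos hp.pos r) h1
  have hnor : K.Normal := Subgroup.normal_of_index_eq_minFac_card hind
  refine ⟨K.map I.subtype, ?_, ?_, ?_, ?_⟩
  · intro a ha
    exact ⟨⟨a, hAI ha⟩, hBK (Subgroup.mem_subgroupOf.2 ha), rfl⟩
  · rintro _ ⟨x, _, rfl⟩
    exact x.2
  · rw [Subgroup.card_map_of_injective I.subtype_injective, hK, hn, pow_succ, mul_comm]
  · rintro g hg _ ⟨x, hx, rfl⟩
    exact ⟨⟨g, hg⟩ * x * ⟨g, hg⟩⁻¹, hnor.conj_mem x hx ⟨g, hg⟩, rfl⟩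

end Pool.CND
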